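import Pool.Agent.V11319.MCDataS11202

/-!
The strong MC number `11202` has an MC-circle with exactly five lattice points on it.
The notions `onCircle`, `IsMCCircle`, `IsMC`, `IsStrongMC` are in `Pool.Agent.V11319.MCDefs`.
-/

namespace Pool.Agent.Results.MP_c7ed95_nt.FivePoints

open Pool.Agent.V11319.MC

/-- The number `11202` is a strong MC number, the circle with centre `(1/4, 1/4)` and radius
`√(28561/8)` is an MC-circle of it, and exactly five lattice points lie on that circle. -/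
theorem result : IsStrongMC 11202 ∧ IsMCCircle 11202 (1 / 4) (1 / 4) (Real.sqrt (28561 / 8)) ∧
    (onCircle (1 / 4) (1 / 4) (Real.sqrt (28561 / 8))).encard = 5 := by
  have F := factsS11202
  have e1 : (((1 : ℕ) : ℝ)) / ((4 : ℕ) : ℝ) = 1 / 4 := by norm_num
  have e3 : (((57122 : ℕ) : ℝ)) / ((4 : ℕ) : ℝ) ^ 2 = 28561 / 8 := by norm_num
  have h1 := F.isMCCircle (by norm_num)
  have h2 := F.onCircle_eq
  rw [e1, e3] at h1 h2
  refine ⟨⟨⟨_, _, _, h1⟩, not_isMC_11203⟩, h1, ?_⟩
  rw [h2]
  have h : {p : ℤ × ℤ | p ∈ LS11202} = (LS11202.toFinset : Set (ℤ × ℤ)) := by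
    ext p
    simp
  rw [h, Set.encard_coe_eq_coe_finsetCard, List.toFinset_card_of_nodup F.nodup]
  rfl

end Pool.Agent.Results.MP_c7ed95_nt.FivePoints
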